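import Pool.Agent.Y161.FSP.Fix

/-!
# Untangling planar graphs of maximum degree three and bipartite planar graphs of bounded degree

Every straight-line drawing (with crossings) of a planar graph of maximum degree at most three with `n`
vertices can be untangled while at least `√(n / 22)` of the vertices stay in place, and these can be
chosen in any given set `X` of vertices if `n` is replaced by `|X|`. The same holds with
`√(n / (D ^ 2 + 1))` for bipartite planar graphs of maximum degree at most `D`.
-/

set_option autoImplicit false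

namespace Pool.Agent.Results.MP_2e6e95_co.SubcubicAndBipartite

open Pool.Agent.H891WLC Pool.Agent.Y161.FSP2 Pool.Agent.Y161.FSP3

/-- `p` is a straight-line crossing-free drawing of `G`: distinct vertices are distinct points, every
edge is the open segment between its ends, no edge contains (the image of) a vertex, and distinct
edges are disjoint. -/
def Drawing {V : Type} (G : SimpleGraph V) (p : V → ℝ × ℝ) : Prop :=
  Function.Injective p ∧
    (∀ u v w : V, G.Adj u v → p w ∉ openSegment ℝ (p u) (p v)) ∧
    (∀ u v x y : V, G.Adj u v → G.Adj x y → s(u, v) ≠ s(x, y) →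
      Disjoint (openSegment ℝ (p u) (p v)) (openSegment ℝ (p x) (p y)))

/-- `G` is planar (it has a straight-line crossing-free drawing) -/
def Planar {V : Type} (G : SimpleGraph V) : Prop := ∃ p : V → ℝ × ℝ, Drawing G p

/-- maximum degree at most `D` -/
def MaxDegree {V : Type} (G : SimpleGraph V) (D : ℕ) : Prop := ∀ v, Set.ncard {x | G.Adj v x} ≤ D

theorem drawing_of_plane {V : Type} {G : SimpleGraph V} {p : V → ℝ × ℝ} (h : Plane G p) :
    Drawing G p := by
  obtain ⟨hinj, hv, he⟩ := h
  have hend : ∀ u v : V, u ≠ v → p u ∉ openSegment ℝ (p u) (p v) := by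
    intro u v huv hmem
    exact huv (hinj (left_mem_openSegment_iff.mp hmem))
  have hend' : ∀ u v : V, u ≠ v → p v ∉ openSegment ℝ (p u) (p v) := by
    intro u v huv hmem
    rw [openSegment_symm] at hmem
    exact hend v u huv.symm hmem
  refine ⟨hinj, ?_, ?_⟩
  · intro u v w huv hmem
    by_cases h1 : w = u
    · subst h1; exact hend _ _ huv.ne hmem
    · by_cases h2 : w = v
      · subst h2; exact hend' _ _ huv.ne hmem
      · exact hv u v w huv h1 h2 (openSegment_subset_segment ℝ _ _ hmem)
  · intro u v x y huv hxy hne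
    rw [Set.disjoint_left]
    intro z hz1 hz2
    obtain ⟨w, hw1, hw2, hzw⟩ := he u v x y huv hxy hne z
      (openSegment_subset_segment ℝ _ _ hz1) (openSegment_subset_segment ℝ _ _ hz2)
    rcases hw1 with rfl | rfl
    · rw [hzw] at hz1; exact hend _ _ huv.ne hz1
    · rw [hzw] at hz1; exact hend' _ _ huv.ne hz1

theorem plane_of_drawing {V : Type} {G : SimpleGraph V} {p : V → ℝ × ℝ} (h : Drawing G p) :
    Plane G p := by
  obtain ⟨hinj, hv, he⟩ := h
  have hcase : ∀ u v : V, ∀ z ∈ segment ℝ (p u) (p v),
      z = p u ∨ z = p v ∨ z ∈ openSegment ℝ (p u) (p v) := by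
    intro u v z hz
    rw [← insert_endpoints_openSegment] at hz
    simpa using hz
  refine ⟨hinj, ?_, ?_⟩
  · intro u v w huv h1 h2 hmem
    rcases hcase u v _ hmem with h | h | h
    · exact h1 (hinj h)
    · exact h2 (hinj h)
    · exact hv u v w huv h
  · intro u v x y huv hxy hne z hz1 hz2
    rcases hcase u v z hz1 with h1 | h1 | h1
    · rcases hcase x y z hz2 with h2 | h2 | h2
      · exact ⟨u, Or.inl rfl, Or.inl (hinj (h1.symm.trans h2)), h1⟩
      · exact ⟨u, Or.inl rfl, Or.inr (hinj (h1.symm.trans h2)), h1⟩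
      · exact absurd (h1 ▸ h2) (hv x y u hxy)
    · rcases hcase x y z hz2 with h2 | h2 | h2
      · exact ⟨v, Or.inr rfl, Or.inl (hinj (h1.symm.trans h2)), h1⟩
      · exact ⟨v, Or.inr rfl, Or.inr (hinj (h1.symm.trans h2)), h1⟩
      · exact absurd (h1 ▸ h2) (hv x y v hxy)
    · rcases hcase x y z hz2 with h2 | h2 | h2
      · exact absurd (h2 ▸ h1) (hv u v x huv)
      · exact absurd (h2 ▸ h1) (hv u v y huv)
      · exact absurd h2 (Set.disjoint_left.mp (he u v x y huv hxy hne) h1)

/-- Every straight-line drawing `Γ` of `G` (distinct vertices at distinct points) can be untangled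
keeping the vertices of some `T ⊆ X` with `|X| ≤ k |T| ^ 2` in place: there is a crossing-free
straight-line drawing that agrees with `Γ` on `T`. -/
def FixAtLeastSqrt {V : Type} (G : SimpleGraph V) (k : ℕ) : Prop :=
  ∀ Γ : V → ℝ × ℝ, Function.Injective Γ → ∀ X : Finset V, ∃ T : Finset V, T ⊆ X ∧
    X.card ≤ k * T.card ^ 2 ∧ ∃ Γ' : V → ℝ × ℝ, Drawing G Γ' ∧ ∀ v ∈ T, Γ' v = Γ v

theorem fix_of {V : Type} [Fintype V] (G : SimpleGraph V) (m : ℕ) (f : V → Fin (m + 1))
    (hf : ∀ S : Finset V, (∀ v ∈ S, ∀ w ∈ S, f v = f w) → FrO G S ∧ FrP G S) :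
    FixAtLeastSqrt G (m + 1) := by
  intro Γ hΓ X
  obtain ⟨S, h1, h2, h3⟩ := pick m f X
  obtain ⟨T, h4, h5, q, h6, h7⟩ := fix G S (hf S h2).1 Γ hΓ
  exact ⟨T, h4.trans h1, h3.trans (Nat.mul_le_mul_left _ h5), q, drawing_of_plane h6, h7⟩

/-- **Untangling.** (a) If `G` is planar of maximum degree at most three, then every straight-line
drawing of `G` can be untangled keeping at least `√(n / 22)` vertices fixed. (b) If `G` is bipartite
planar of maximum degree at most `D`, at least `√(n / (D ^ 2 + 1))`. In both cases the fixed vertices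
can be chosen in any set `X` of vertices, with `|X|` in place of `n`. -/
theorem result :
    (∀ (V : Type) [Fintype V] (G : SimpleGraph V), Planar G → MaxDegree G 3 →
      FixAtLeastSqrt G 22) ∧
    (∀ (D : ℕ) (V : Type) [Fintype V] (G : SimpleGraph V), Planar G → G.Colorable 2 →
      MaxDegree G D → FixAtLeastSqrt G (D ^ 2 + 1)) := by
  constructor
  · intro V _ G hP hG
    obtain ⟨p, hp⟩ := hP
    obtain ⟨f, hf⟩ := cubicPart G ⟨p, plane_of_drawing hp⟩ hG
    exact fix_of G 21 f hf
  · intro D V _ G hP hc hG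
    obtain ⟨p, hp⟩ := hP
    obtain ⟨f, hf⟩ := bipPart G ⟨p, plane_of_drawing hp⟩ hc D hG
    rw [sq]
    exact fix_of G (D * D) f hf

end Pool.Agent.Results.MP_2e6e95_co.SubcubicAndBipartite
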